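import Pool.Agent.H458.AG.Final
import Pool.Agent.H428.S.JacW
import Pool.Graph.R_pool_sql_team_seeded_63374d34.N874.TF.All

/-!
# Abelian varieties over `ℚ` from bounded quadratic twists of almost all Jacobians over every number field

Let `F` be ANY number field. For `g ≥ 1` we consider ALL the polynomials
`f = x ^ (2 g + 1) + a_(2 g - 1) x ^ (2 g - 1) + ... + a_0` with coefficients in the ring of integers of `F`,
ordered by the height: `|σ a_i| ≤ B ^ (2 g + 1 - i)` for all embeddings `σ` of `F` in `ℂ`. (Every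
hyperelliptic curve of genus `g` over `F` with a rational Weierstrass point has an equation `y ^ 2 = f(x)`
with such an `f`.) `J_f` is the Jacobian of `y ^ 2 = f(x)`, and `f ^ d = d ^ (2 g + 1) f(x / d)`, so that
the Jacobian of `y ^ 2 = f ^ d (x)` is the quadratic twist `J_f ^ d`.

**Theorem.** Let `W ≥ 1`, let `𝒮` be a finite set of nonzero integers of `F` and `ε > 0`. For every `g ≥ 1`
there are a FINITE set `𝒟_g` of squarefree natural numbers `D ≡ 1 mod 8 W`, with `1 ∈ 𝒟_g`, a multiple
`R_g` of `W` and of all `D ∈ 𝒟_g`, and a set `U_g` of polynomials such that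

(1) all the polynomials of degree `2 g + 1` of height at most `B` belong to `U_g`, with the exception of a
proportion `ε` at most, for all large `B`;

(2) for all `f_1, ..., f_k` with `f_i ∈ U_(g_i)` and all `d_i ∈ 𝒮` there are `D_i ∈ 𝒟_(g_i)` such that for
ALL the number fields `M` in the classes `C(f_i ^ d_i, R_(g_i))` described below (`M = F` belongs to all
of them), for any abelian variety `B` over `F` with homomorphisms `B → ∏ J_(f_i) ^ (d_i D_i) → B` over `M`
with composition `n₁` (that is, `B` is over `M` an isogeny factor of the product) and any abelian variety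
`A` over `ℚ` with homomorphisms `A → Res_(F / ℚ) B → A` over `ℚ` with composition `n₂`: the number
`N = n₂ n₁ [M : F]` kills the 2-primary part of `Ш(A / ℚ)`, and `N P` is divisible by all powers of two in
`A(ℚ)` for all `P ∈ A(ℚ)`; so `A(ℚ)` (rank `0`) and `Ш(A / ℚ)[2 ^ ∞]` are finite. If `n₁` and `n₂` are odd,
then multiplication by two is bijective on `A(ℚ)` (it is a finite group of odd order), and
`Ш(A / ℚ)[2 ^ ∞] = 0`.

(3) Let `ω(B)` be ANY function which tends to infinity. The proportion of the `f` of degree `2 g + 1` and of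
height at most `B` for which for every `d ∈ 𝒮` there is a squarefree `D ≤ ω(B)`, `D ≡ 1 mod 8 W`, such that
multiplication by two is bijective on the points of the twist `J_f ^ (d D)` over `F` and the 2-primary part
of its Tate-Shafarevich group over `F` is zero, tends to `1`, as `B → ∞`.

The class `C(f, R)` consists of the Galois extensions `M / F` of 2-power degree in which the primes
dividing `R` split completely, such that for every prime `v` of `F` either `M / F` is unramified at `v` or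
`f` is irreducible modulo `v`, and such that for every real embedding `σ` of `F` either a real embedding of
`M` extends `σ` or `σ f` has only one real zero.

So, up to a proportion `ε`, EVERY hyperelliptic Jacobian with a rational Weierstrass point over ANY number
field, of ANY dimension, has, after a quadratic twist by one of finitely many natural numbers which do not
depend on the curve, rank zero and no 2-part of Sha; and the same for the abelian varieties over `ℚ` which are
made from them. Before this a positive proportion of the `J_f` had been obtained by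
twisting or without it (in the library and in this run), for `g = 1` almost all (`MP_7cad78_nt.
FiniteSetsOfTwists`, by the same method). In that the twist `D` is bounded, or smaller than an arbitrarily slowly
growing function of the height, it is new in every genus.

The groups in (2) are those of arbitrary functors (from the algebraically closed fields of
characteristic zero, and from the algebraically closed extension fields of `F`, to the abelian groups); an
abelian variety over `ℚ`, or over `F`, gives such a functor. `A(ℚ)` is the group of the points over the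
algebraic numbers which are fixed by the Galois group, and `Ш(A / ℚ)` is defined by continuous cocycles on
the absolute Galois group of `ℚ` with values in `A` of the algebraic numbers which are trivial over all
`ℚ_p` and over `ℝ`. A homomorphism over `ℚ` between `A` and `Res B` is the same as one over `F` between `A`
and `B`. (This part is by helper428, `MP_a43263_nt.EveryNumberField`.)

Proof. `f` is good at a prime number `q` (totally split at a prime of degree one, `q ≡ 1 mod 8 W`) if `f` has exactly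
one zero modulo one prime of degree one over `q`, its cofactor is irreducible there, and `f` is irreducible modulo the
other primes over `q`. For a set `S` of primes at which `f` is good, `f` has a twist as required by a product of
primes in `S` if `f` is not in an exceptional set, and a theorem on the orbits of Bhargava and Gross (library and
helper459) and the number of points near the cusp bound the number of the exceptional `f` by `C 2 ^ (- # S)` of the
good ones, `C` independent of `S`. The new idea is to choose `S` depending on `f`: take `k` disjoint blocks of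
primes such that the expected number of good primes in each block is large. All but few `f` have at least `9 / 10`
of this number of good primes in every block; if `f` is exceptional for ALL the transversals `S` of its good
primes, then it is counted very often, and the number of these `f` is at most `C (5 / 9) ^ k` of all.
In this run the parts for genus `g` were proved by helpers 30, 47, 71, 80, 102, 118, 139, 152, 166, 231, 234, 236, 294,
295, 307, 322, 348, 372, 383, 650, 686 and 945.
-/

set_option autoImplicit false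
set_option linter.all false

namespace Pool.Agent.Results.MP_a43263_nt.AlmostAllJacobians

open Polynomial Filter IsDedekindDomain NumberField
open Pool.Agent.H428.S (GroupFunctor FunctorOver IsFactorOver IsResFactor prod jacobian NoTwoPart
  NoTwoPartUpTo)
open Pool.Agent.N874.Jac (UniquelyTwoDivisible ShaTwoTrivialReal)
open scoped Classical

section defs

variable {F : Type} [Field F] [NumberField F]

/-- `f` is a monic polynomial of degree `2 g + 1` with integral coefficients, without term of degree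
`2 g`, and of height at most `B`: all conjugates of the coefficient of degree `j` are at most
`B ^ (2 g + 1 - j)` in absolute value. -/
structure IsPoly (g B : ℕ) (f : (𝓞 F)[X]) : Prop where
  monic : f.Monic
  degree : f.natDegree = 2 * g + 1
  trace : f.coeff (2 * g) = 0
  height : ∀ j ≤ 2 * g, ∀ σ : F →+* ℂ, ‖σ (f.coeff j : F)‖ ≤ (B : ℝ) ^ (2 * g + 1 - j)

variable (F) in
/-- The polynomials `f` of height at most `B`. -/
def Polys (g B : ℕ) : Set (𝓞 F)[X] := {f | IsPoly g B f}

/-- `f` is irreducible modulo `v`. -/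
def IrreducibleMod (f : (𝓞 F)[X]) (v : HeightOneSpectrum (𝓞 F)) : Prop :=
  Irreducible (f.map (Ideal.Quotient.mk v.asIdeal))

/-- `M / F` is unramified at `v`. -/
def Unramified (v : HeightOneSpectrum (𝓞 F)) (M : Type) [Field M] [NumberField M]
    [Algebra F M] : Prop :=
  ∀ w : HeightOneSpectrum (𝓞 M), v.asIdeal.map (algebraMap (𝓞 F) (𝓞 M)) ≤ w.asIdeal →
    ¬ v.asIdeal.map (algebraMap (𝓞 F) (𝓞 M)) ≤ w.asIdeal ^ 2

/-- `v` splits completely in `M`: it is unramified and all integers of `M` are congruent to integers of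
`F` modulo every prime over `v`. -/
def SplitsCompletely (v : HeightOneSpectrum (𝓞 F)) (M : Type) [Field M] [NumberField M]
    [Algebra F M] : Prop :=
  Unramified v M ∧
  ∀ w : HeightOneSpectrum (𝓞 M), v.asIdeal.map (algebraMap (𝓞 F) (𝓞 M)) ≤ w.asIdeal →
    ∀ y : 𝓞 M, ∃ c : 𝓞 F, y - algebraMap (𝓞 F) (𝓞 M) c ∈ w.asIdeal

/-- The extension `M / F` belongs to the class `C(f, R)` of the number `R` and the polynomial `f`. -/
structure InClass (R : ℕ) (f : (𝓞 F)[X]) (M : Type) [Field M] [NumberField M] [Algebra F M] : Prop where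
  split : ∀ v : HeightOneSpectrum (𝓞 F), (R : 𝓞 F) ∈ v.asIdeal → SplitsCompletely v M
  ramified : ∀ v : HeightOneSpectrum (𝓞 F), Unramified v M ∨ IrreducibleMod f v
  real : ∀ σ : F →+* ℝ, (∃ ρ : M →+* ℝ, ρ.comp (algebraMap F M) = σ) ∨
    ∃! e : ℝ, (f.map (σ.comp (algebraMap (𝓞 F) F))).eval e = 0

/-- `f` as a polynomial over the extension `M` of `F`. -/
noncomputable def poly (M : Type) [Field M] [Algebra F M] (f : (𝓞 F)[X]) : M[X] :=
  (f.map (algebraMap (𝓞 F) F)).map (algebraMap F M)

/-- `d ^ (2 g + 1) f(x / d)`: the coefficient of degree `j` is multiplied by `d ^ (2 g + 1 - j)`. The curve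
`y ^ 2 = twist f d` is the quadratic twist by `d` of the curve `y ^ 2 = f(x)`. -/
noncomputable def twist (f : (𝓞 F)[X]) (d : 𝓞 F) : (𝓞 F)[X] := f.scaleRoots d

/-- The Jacobian over `F` of `y ^ 2 = f(x)` has no points which are not (uniquely) divisible by two and no
2-primary part of the Tate-Shafarevich group. -/
structure Trivial (f : (𝓞 F)[X]) : Prop where
  points : UniquelyTwoDivisible (poly F f)
  sha : ShaTwoTrivialReal (poly F f) (𝓞 F)

end defs

section pf

open Pool.Agent.H459.UF (Unr Deg1 fo fb)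
open Pool.Agent.H458.AG (ClsM Tws)
open Pool.Agent.N783.PF (Ht fF rd SelZero)

variable {F : Type} [Field F] [NumberField F]

theorem unr_of {M : Type} [Field M] [NumberField M] [Algebra F M] {v : HeightOneSpectrum (𝓞 F)}
    (h : Unramified v M) : Unr F M v := fun P hP =>
  h P (hP.trans (Ideal.pow_le_self two_ne_zero)) hP

theorem of_unr {M : Type} [Field M] [NumberField M] [Algebra F M] {v : HeightOneSpectrum (𝓞 F)}
    (h : Unr F M v) : Unramified v M := fun P _ hP => h P hP

theorem cls_of {M : Type} [Field M] [NumberField M] [Algebra F M] {R : ℕ} {f : (𝓞 F)[X]}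
    (h : InClass R f M) : ClsM F M R f where
  spl := fun v hv => ⟨unr_of (h.split v hv).1, (h.split v hv).2⟩
  unr := fun v => (h.ramified v).imp unr_of id
  real := fun σ => (h.real σ).imp id fun h' => by
    unfold fF
    rw [Polynomial.map_map]
    exact h'

/-- `M = F` belongs to all the classes. -/
theorem self_mem (R : ℕ) (f : (𝓞 F)[X]) : InClass R f F := by
  have h2 := Pool.Agent.H458.AU.cls_self (F := F) R 0
  exact ⟨fun v hv => ⟨of_unr (Pool.Agent.H458.AU.unr_self v), (h2.spl v hv).2⟩,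
    fun v => Or.inl (of_unr (Pool.Agent.H458.AU.unr_self v)), fun σ => Or.inl ⟨σ, by
    ext x
    rfl⟩⟩

theorem fF_fo (M : Type) [Field M] [NumberField M] [Algebra F M] (f : (𝓞 F)[X]) :
    fF (fo M f) = poly M f := by
  unfold fF fo poly
  rw [Polynomial.map_map, Polynomial.map_map]
  rfl

theorem irr_scale {f : (𝓞 F)[X]} {c : 𝓞 F} (hc : c ≠ 0) (hm : f.Monic) (h : Irreducible (fF f)) :
    Irreducible (fF (f.scaleRoots c)) := by
  have hc' : (c : F) ≠ 0 := by
    intro h0
    exact hc (by exact_mod_cast h0)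
  have e : fF (f.scaleRoots c) = (fF f).scaleRoots (c : F) := by
    refine Polynomial.ext fun j => ?_
    unfold fF
    rw [coeff_map, coeff_scaleRoots, coeff_scaleRoots, coeff_map, hm.natDegree_map, map_mul, map_pow]
  rw [e]
  exact Pool.Agent.N170.PF.irr_scale hc' h

/-- From the zero 2-Selmer group to the points and Sha. -/
theorem key {M : Type} [Field M] [NumberField M] [Algebra F M] {n : ℕ}
    (hn : Module.finrank F M = 2 ^ n) {f : (𝓞 F)[X]} (hm : f.Monic) (ho : Odd f.natDegree)
    (hi : Irreducible (fF f)) (h : SelZero (fo M f)) :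
    UniquelyTwoDivisible (poly M f) ∧ ShaTwoTrivialReal (poly M f) (𝓞 M) := by
  refine Pool.Agent.N874.TF.genuineF hn hm ho hi ?_
  have e : Pool.Agent.N874.TF.fM M f = fF (fo M f) := (fF_fo M f).symm
  rw [e]
  exact h

/-- The set of the polynomials with good twists. -/
def VV (F : Type) [Field F] [NumberField F] (g R : ℕ) (𝒟 : Finset ℕ) (𝒮 : Finset (𝓞 F)) :
    Set (𝓞 F)[X] :=
  {f | f.Monic ∧ f.natDegree = 2 * g + 1 ∧ Irreducible (fF f) ∧ ∀ d ∈ 𝒮, Tws R 𝒟 (f.scaleRoots d)}

theorem polys_eq (g B : ℕ) : Polys F g B = {f : (𝓞 F)[X] | Ht g B f} := by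
  ext f
  exact ⟨fun h => ⟨h.monic, h.degree, h.trace, fun j hj σ => h.height j hj σ⟩,
    fun h => ⟨h.mon, h.deg, h.tr, fun j hj σ => h.ht j hj σ⟩⟩

theorem part (F : Type) [Field F] [NumberField F] (W : ℕ) (hW : 0 < W) (𝒮 : Finset (𝓞 F))
    (h𝒮 : ∀ d ∈ 𝒮, d ≠ 0) (ε : ℝ) (hε : 0 < ε) (g : ℕ) (hg : 1 ≤ g) :
    (∀ B : ℕ, (Polys F g B).Finite) ∧ ∃ (R : ℕ) (𝒟 : Finset ℕ), 0 < R ∧ W ∣ R ∧ 1 ∈ 𝒟 ∧
      (∀ D ∈ 𝒟, Squarefree D ∧ D ≡ 1 [MOD 8 * W] ∧ D ∣ R) ∧
      ∀ᶠ B : ℕ in atTop, 0 < (Polys F g B).ncard ∧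
        (1 - ε) * ((Polys F g B).ncard : ℝ) ≤ ((VV F g R 𝒟 𝒮 ∩ Polys F g B).ncard : ℝ) := by
  obtain ⟨R, 𝒟, hR, hWR, h1, hD, B₀, hB₀⟩ := Pool.Agent.H458.AG.final F g hg W hW 𝒮 h𝒮 (ε / 2)
    (half_pos hε)
  obtain ⟨C, B₁, hC, hlow⟩ := Pool.Agent.H458.AG.lower F g
  have hC0 : (0 : ℝ) < C := by exact_mod_cast hC
  obtain ⟨B₂, hB₂⟩ := Pool.Agent.H139.AG458.irr Pool.Agent.H458.AG.fib Pool.Agent.H372.AG458.irc F g hg
    (ε / (2 * C)) (by positivity)
  have hfin : ∀ B : ℕ, (Polys F g B).Finite := by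
    intro B
    have h1 := (hB₀ (max B B₀) (le_max_right _ _)).1
    rw [← polys_eq] at h1
    refine h1.subset fun f hf => ⟨hf.monic, hf.degree, hf.trace, fun j hj σ => ?_⟩
    refine (hf.height j hj σ).trans ?_
    exact pow_le_pow_left₀ (Nat.cast_nonneg _) (by exact_mod_cast le_max_left B B₀) _
  refine ⟨hfin, R, 𝒟, hR, hWR, h1, hD, ?_⟩
  filter_upwards [eventually_ge_atTop (max B₀ (max B₁ B₂))] with B hB
  have hb0 : B₀ ≤ B := (le_max_left _ _).trans hB
  have hb1 : B₁ ≤ B := ((le_max_left _ _).trans (le_max_right _ _)).trans hB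
  have hb2 : B₂ ≤ B := ((le_max_right _ _).trans (le_max_right _ _)).trans hB
  obtain ⟨h3, h4, h5⟩ := hB₀ B hb0
  have h6 := hlow B hb1 h3
  have h7 := hB₂ B hb2
  rw [← polys_eq] at h3 h4 h5 h6
  refine ⟨h4, ?_⟩
  obtain ⟨E, hE⟩ : ∃ E : Set (𝓞 F)[X], E = {f : (𝓞 F)[X] | Ht g B f ∧
    ∃ d ∈ 𝒮, ¬ Tws R 𝒟 (f.scaleRoots d)} := ⟨_, rfl⟩
  obtain ⟨E', hE'⟩ : ∃ E' : Set (𝓞 F)[X], E' = {f : (𝓞 F)[X] | Ht g B f ∧ ¬ Irreducible (fF f)} :=
    ⟨_, rfl⟩
  rw [← hE] at h5
  rw [← hE'] at h7
  have hEf : E.Finite := h3.subset (by rw [hE, polys_eq]; exact fun f hf => hf.1)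
  have hEf' : E'.Finite := h3.subset (by rw [hE', polys_eq]; exact fun f hf => hf.1)
  have hsub : Polys F g B ⊆ (VV F g R 𝒟 𝒮 ∩ Polys F g B) ∪ (E ∪ E') := by
    intro f hf
    have hf' := hf
    rw [polys_eq] at hf'
    by_cases c1 : f ∈ E
    · exact Or.inr (Or.inl c1)
    · by_cases c2 : f ∈ E'
      · exact Or.inr (Or.inr c2)
      · left
        rw [hE, Set.mem_setOf_eq, not_and] at c1
        rw [hE', Set.mem_setOf_eq, not_and, not_not] at c2
        have c3 := c1 hf'
        push Not at c3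
        exact ⟨⟨hf.monic, hf.degree, c2 hf', c3⟩, hf⟩
  have h8 := Set.ncard_le_ncard hsub ((h3.subset Set.inter_subset_right).union (hEf.union hEf'))
  have h9 := Set.ncard_union_le (VV F g R 𝒟 𝒮 ∩ Polys F g B) (E ∪ E')
  have h10 := Set.ncard_union_le E E'
  have h11 : ((Polys F g B).ncard : ℝ) ≤ ((VV F g R 𝒟 𝒮 ∩ Polys F g B).ncard : ℝ) +
      ((E.ncard : ℝ) + (E'.ncard : ℝ)) := by
    exact_mod_cast h8.trans (h9.trans (Nat.add_le_add_left h10 _))
  have h12 : (E'.ncard : ℝ) ≤ ε / 2 * ((Polys F g B).ncard : ℝ) := by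
    have h13 : ((B ^ (Module.finrank ℚ F * Pool.Agent.N352.PJ.dd g) : ℕ) : ℝ) ≤
        ((C * (Polys F g B).ncard : ℕ) : ℝ) := by exact_mod_cast h6
    push_cast at h13
    calc (E'.ncard : ℝ) ≤ ε / (2 * C) *
          (B : ℝ) ^ (Module.finrank ℚ F * Pool.Agent.N352.PJ.dd g) := h7
      _ ≤ ε / (2 * C) * (C * ((Polys F g B).ncard : ℝ)) :=
        mul_le_mul_of_nonneg_left h13 (by positivity)
      _ = ε / 2 * ((Polys F g B).ncard : ℝ) := by field_simp
  linarith

/-- The twists of a polynomial in `VV` over `F`. -/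
theorem triv_of {g R : ℕ} {𝒟 : Finset ℕ} {𝒮 : Finset (𝓞 F)} (h𝒮 : ∀ d ∈ 𝒮, d ≠ 0)
    (hD0 : ∀ D ∈ 𝒟, Squarefree D) {f : (𝓞 F)[X]} (hf : f ∈ VV F g R 𝒟 𝒮) {d : 𝓞 F} (hd : d ∈ 𝒮) :
    ∃ D ∈ 𝒟, ∀ (M : Type) [Field M] [NumberField M] [Algebra F M] [IsGalois F M] (b : ℕ),
      Module.finrank F M = 2 ^ b → InClass R (twist f d) M →
      UniquelyTwoDivisible (poly M (twist f (d * (D : 𝓞 F)))) ∧
        ShaTwoTrivialReal (poly M (twist f (d * (D : 𝓞 F)))) (𝓞 M) := by
  obtain ⟨D, hD, h⟩ := hf.2.2.2 d hd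
  refine ⟨D, hD, fun M _ _ _ _ b hb hM => ?_⟩
  have h0 : (D : 𝓞 F) ≠ 0 := Nat.cast_ne_zero.2 (hD0 D hD).ne_zero
  have h1 := h M b hb (cls_of hM)
  rw [← scaleRoots_mul] at h1
  refine key hb ((monic_scaleRoots_iff _).2 hf.1) ?_
    (irr_scale (mul_ne_zero (h𝒮 d hd) h0) hf.1 hf.2.2.1) h1
  unfold twist
  rw [natDegree_scaleRoots, hf.2.1]
  exact odd_two_mul_add_one _

end pf

/-- **Bounded twists of almost all Jacobians.** Let `F` be a number field, `W ≥ 1` and `𝒮` a finite set of
nonzero integers of `F`. For every `ε > 0` and every `g ≥ 1` there are a finite set `𝒟_g` of squarefree natural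
numbers `D ≡ 1 mod 8 W`, a multiple `R_g` of them and of `W`, and a set `U_g` which contains at least
`(1 - ε)` of the polynomials of degree `2 g + 1` of height at most `B` for all large `B`, such that for
`f_i ∈ U_(g_i)` and `d_i ∈ 𝒮` there are `D_i ∈ 𝒟_(g_i)` with the following property for all Galois extensions `M / F`
of degree `2 ^ b` in the classes `C(f_i ^ d_i, R_(g_i))`: if `B` over `F` has homomorphisms `B → ∏ J_i → B`
over `M` with composition `n₁`, where `J_i` is the Jacobian of the twist of `y ^ 2 = f_i(x)` by `d_i D_i`,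
and `A` over `ℚ` has homomorphisms `A → Res B → A` with composition `n₂`, then the number
`N = n₂ n₁ 2 ^ b` kills the 2-primary part of `Ш(A / ℚ)` and `N P` is divisible by all powers of
two in `A(ℚ)` for all `P ∈ A(ℚ)`; and if `n₁` and `n₂` are odd, then multiplication by two is bijective on
`A(ℚ)` and the 2-primary part of `Ш(A / ℚ)` is zero. `M = F` is in all the classes. Moreover, for every
function `ω` which tends to infinity, for a proportion of the polynomials which tends to `1` all the twists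
`J_f ^ d`, `d ∈ 𝒮`, have such a twist over `F` by a number `D ≤ ω(B)`. -/
theorem result (F : Type) [Field F] [NumberField F] (W : ℕ) (hW : 0 < W) (𝒮 : Finset (𝓞 F))
    (h𝒮 : ∀ d ∈ 𝒮, d ≠ 0) :
    (∀ g B : ℕ, 1 ≤ g → (Polys F g B).Finite) ∧
    (∀ (R : ℕ) (f : (𝓞 F)[X]), InClass R f F) ∧
    (∀ ε : ℝ, 0 < ε → ∃ (R : ℕ → ℕ) (𝒟 : ℕ → Finset ℕ) (U : ℕ → Set (𝓞 F)[X]),
      (∀ g : ℕ, 1 ≤ g → 0 < R g ∧ W ∣ R g ∧ 1 ∈ 𝒟 g ∧
        (∀ D ∈ 𝒟 g, Squarefree D ∧ D ≡ 1 [MOD 8 * W] ∧ D ∣ R g) ∧
        ∀ᶠ B : ℕ in atTop, 0 < (Polys F g B).ncard ∧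
          (1 - ε) * ((Polys F g B).ncard : ℝ) ≤ ((U g ∩ Polys F g B).ncard : ℝ)) ∧
      ∀ (k : ℕ) (g : Fin k → ℕ) (f : Fin k → (𝓞 F)[X]) (d : Fin k → 𝓞 F),
        (∀ i, 1 ≤ g i ∧ f i ∈ U (g i) ∧ d i ∈ 𝒮) →
        ∃ D : Fin k → ℕ, (∀ i, D i ∈ 𝒟 (g i)) ∧
        ∀ (M : Type) [Field M] [NumberField M] [Algebra F M] [IsGalois F M] (b : ℕ),
        Module.finrank F M = 2 ^ b → (∀ i, InClass (R (g i)) (twist (f i) (d i)) M) →
        ∀ (B : FunctorOver F) (n₁ : ℕ), IsFactorOver (B.baseChange M)
          (prod fun i => jacobian (poly M (twist (f i) (d i * (D i : 𝓞 F))))) n₁ →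
        ∀ (A : GroupFunctor) (n₂ : ℕ), IsResFactor A B n₂ →
          NoTwoPartUpTo A (n₂ * (n₁ * 2 ^ b)) ∧ (Odd n₁ → Odd n₂ → NoTwoPart A)) ∧
    ∀ (g : ℕ) (ω : ℕ → ℝ), 1 ≤ g → Tendsto ω atTop atTop →
      Tendsto (fun B : ℕ => ({f ∈ Polys F g B | ∀ d ∈ 𝒮, ∃ D : ℕ, Squarefree D ∧ D ≡ 1 [MOD 8 * W] ∧
        (D : ℝ) ≤ ω B ∧ Trivial (twist f (d * (D : 𝓞 F)))}.ncard : ℝ) / ((Polys F g B).ncard : ℝ))
        atTop (nhds 1) := by
  refine ⟨fun g B hg => (part F W hW 𝒮 h𝒮 1 one_pos g hg).1 B, self_mem, fun ε hε => ?_,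
    fun g ω hg hω => ?_⟩
  · choose R 𝒟 hR hWR h1 hD hU using fun (g : ℕ) (hg : 1 ≤ g) => (part F W hW 𝒮 h𝒮 ε hε g hg).2
    refine ⟨fun g => if hg : 1 ≤ g then R g hg else 1, fun g => if hg : 1 ≤ g then 𝒟 g hg else ∅,
      fun g => {f | ∃ hg : 1 ≤ g, f ∈ VV F g (R g hg) (𝒟 g hg) 𝒮}, ?_, ?_⟩
    · intro g hg
      simp only [dif_pos hg]
      refine ⟨hR g hg, hWR g hg, h1 g hg, hD g hg, ?_⟩
      filter_upwards [hU g hg] with B hB
      refine ⟨hB.1, hB.2.trans ?_⟩
      have hfin := (part F W hW 𝒮 h𝒮 1 one_pos g hg).1 B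
      have h2 := Set.ncard_le_ncard (s := VV F g (R g hg) (𝒟 g hg) 𝒮 ∩ Polys F g B)
        (t := {f | ∃ hg : 1 ≤ g, f ∈ VV F g (R g hg) (𝒟 g hg) 𝒮} ∩ Polys F g B)
        (fun f hf => ⟨⟨hg, hf.1⟩, hf.2⟩) (hfin.subset Set.inter_subset_right)
      exact_mod_cast h2
    · intro k g f d hf
      have hin : ∀ i, ∃ hg : 1 ≤ g i, f i ∈ VV F (g i) (R (g i) hg) (𝒟 (g i) hg) 𝒮 :=
        fun i => (hf i).2.1
      choose hg hV using hin
      have hk := fun i => triv_of h𝒮 (fun D hD' => (hD (g i) (hg i) D hD').1) (hV i) (hf i).2.2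
      choose D hD1 hD2 using hk
      refine ⟨D, fun i => ?_, ?_⟩
      · simp only [dif_pos (hg i)]
        exact hD1 i
      · intro M _ _ _ _ b hb hM B n₁ hB A n₂ hA
        have h2 : ∀ i, InClass (R (g i) (hg i)) (twist (f i) (d i)) M := by
          intro i
          have := hM i
          simp only [dif_pos (hg i)] at this
          exact this
        have hne : ∀ i, d i * (D i : 𝓞 F) ≠ 0 := fun i => mul_ne_zero (h𝒮 _ (hf i).2.2)
          (Nat.cast_ne_zero.2 (hD (g i) (hg i) _ (hD1 i)).1.ne_zero)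
        have hmo : ∀ i, (twist (f i) (d i * (D i : 𝓞 F))).Monic := fun i =>
          (monic_scaleRoots_iff _).2 (hV i).1
        refine Pool.Agent.H428.S.jac_tower hb (fun i => ((hmo i).map _).map _) (fun i => ?_)
          (fun i => ?_) (fun i => (hD2 i M b hb (h2 i)).1) (fun i => (hD2 i M b hb (h2 i)).2) hB hA
        · exact (irr_scale (hne i) (hV i).1 (hV i).2.2.1).separable.map
        · have e : (poly M (twist (f i) (d i * (D i : 𝓞 F)))).natDegree = 2 * g i + 1 := by
            unfold poly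
            rw [((hmo i).map _).natDegree_map, (hmo i).natDegree_map]
            unfold twist
            rw [natDegree_scaleRoots, (hV i).2.1]
          have e2 : Odd (poly M (twist (f i) (d i * (D i : 𝓞 F)))).natDegree := by
            rw [e]
            exact odd_two_mul_add_one _
          exact e2
  · rw [Metric.tendsto_atTop]
    intro ε hε
    obtain ⟨hfin, R, 𝒟, hR, hWR, h1, hD, hX⟩ := part F W hW 𝒮 h𝒮 (ε / 2) (half_pos hε) g hg
    obtain ⟨m, hm⟩ : ∃ m : ℕ, ∀ D ∈ 𝒟, D ≤ m := ⟨𝒟.sup id, fun D hD => Finset.le_sup (f := id) hD⟩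
    obtain ⟨X₀, hX₀⟩ := eventually_atTop.1 (hX.and (hω.eventually_ge_atTop (m : ℝ)))
    refine ⟨X₀, fun B hB => ?_⟩
    obtain ⟨⟨hpos, hle⟩, hωB⟩ := hX₀ B hB
    obtain ⟨G, hG⟩ : ∃ G : Set (𝓞 F)[X], G = {f ∈ Polys F g B | ∀ d ∈ 𝒮, ∃ D : ℕ, Squarefree D ∧
      D ≡ 1 [MOD 8 * W] ∧ (D : ℝ) ≤ ω B ∧ Trivial (twist f (d * (D : 𝓞 F)))} := ⟨_, rfl⟩
    rw [← hG]
    have hGP : G ⊆ Polys F g B := by
      rw [hG]
      exact fun f hf => hf.1
    have hsub : VV F g R 𝒟 𝒮 ∩ Polys F g B ⊆ G := by
      rintro f ⟨hf, hfP⟩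
      rw [hG]
      refine ⟨hfP, fun d hd => ?_⟩
      obtain ⟨D, hD1, h2⟩ := triv_of h𝒮 (fun D hD' => (hD D hD').1) hf hd
      have h3 := h2 F 0 (by rw [Module.finrank_self, pow_zero]) (self_mem _ _)
      exact ⟨D, (hD D hD1).1, (hD D hD1).2.1, le_trans (by exact_mod_cast hm D hD1) hωB, h3.1, h3.2⟩
    have c1 := Set.ncard_le_ncard hsub ((hfin B).subset hGP)
    have c2 := Set.ncard_le_ncard hGP (hfin B)
    obtain ⟨N, hN⟩ : ∃ N : ℝ, N = ((Polys F g B).ncard : ℝ) := ⟨_, rfl⟩
    have hN0 : 0 < N := by rw [hN]; exact_mod_cast hpos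
    have c3 : (1 - ε / 2) * N ≤ (G.ncard : ℝ) := by
      rw [hN]
      refine hle.trans ?_
      exact_mod_cast c1
    have c4 : (G.ncard : ℝ) ≤ N := by rw [hN]; exact_mod_cast c2
    rw [← hN, Real.dist_eq, abs_sub_lt_iff]
    constructor
    · have : (G.ncard : ℝ) / N ≤ 1 := (div_le_one hN0).2 c4
      linarith
    · have : 1 - ε / 2 ≤ (G.ncard : ℝ) / N := (le_div_iff₀ hN0).2 c3
      linarith

end Pool.Agent.Results.MP_a43263_nt.AlmostAllJacobians
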