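import Pool.Agent.H428.S.JacW
import Pool.Graph.R_pool_sql_team_seeded_63374d34.N874.TF.All

/-!
# Abelian varieties over `ℚ` from Jacobians over every number field: rank zero and no 2-part of Sha

Let `F` be ANY number field. For `g ≥ 1` we consider all the polynomials
`f = x ^ (2 g + 1) + a_(2 g - 1) x ^ (2 g - 1) + ... + a_0` with coefficients in the ring of integers of `F`,
ordered by the height: `|σ a_i| ≤ B ^ (2 g + 1 - i)` for all embeddings `σ` of `F` in `ℂ`. (Every
hyperelliptic curve of genus `g` over `F` with a rational Weierstrass point, and for `g = 1` every elliptic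
curve over `F`, has an equation `y ^ 2 = f(x)` with such an `f`.) `J_f` is the Jacobian of `y ^ 2 = f(x)`.
For `f` and a finite set `Q` of primes of `F` let `C(f, Q)` be the class of all the finite Galois extensions
`M / F` of 2-power degree in which all the real places of `F`, the primes over `2` and the `v ∈ Q` split
completely and in which only primes `v` are ramified modulo which `f` is irreducible.

Theorem. For every finite set `T` of primes of `F` there are, for all `g ≥ 1`, finite sets `Q_g` of primes
outside `T` and sets `U_g` of polynomials, of positive lower density among all the polynomials above and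
irreducible modulo all `v ∈ T` and all `v ∣ 2`, with the following property. Let
* `f_1, ..., f_k` be polynomials, `f_i ∈ U_(g_i)`, and `M` a field in all the classes `C(f_i, Q_(g_i))`,
* `B` any abelian variety over `F` with homomorphisms `B → J_(f_1) × ... × J_(f_k) → B` OVER `M`, the
  composition of which is multiplication by `n₁` (that is, `B` is over `M` an isogeny factor of the product;
  polynomials may be repeated, so that powers of the Jacobians are included),
* `A` any abelian variety over `ℚ` with homomorphisms `A → Res B → A` over `ℚ`, the composition of which is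
  multiplication by `n₂`, where `Res B` is the restriction of scalars of `B` from `F` to `ℚ`.
Then `N = n₂ n₁ [M : F]` kills the 2-primary part of `Ш(A / ℚ)`, and `N P` is divisible by all powers of two
in `A(ℚ)` for all `P ∈ A(ℚ)`; so (theorem of Mordell and Weil, finiteness of `Ш[N]`) `A(ℚ)` and
`Ш(A / ℚ)[2^∞]` are finite. If `n₁` and `n₂` are odd, then multiplication by two is bijective on `A(ℚ)` (the
order of this finite group is odd), and `Ш(A / ℚ)[2^∞] = 0`.

Already the case `A = Res B`, `n₂ = 1`, contains for every number field `F` and in every genus a positive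
proportion of all the `J_f` (`B = J_f`, `M = F`), of dimension `g [F : ℚ]`, and for each of them the abelian
varieties `Res (J_f ⊗ Λ)` for all the lattices `Λ` with an action of `Gal(M / F)`, for all `M` in an
infinite class: for example the quadratic twists, and the restrictions of scalars from all intermediate
fields. (`C(f, Q)` is closed under composita. It is infinite: `f` is irreducible modulo the primes over `2`,
so its Galois group contains an element which permutes the zeros in one cycle, and by the theorem of
Chebotarev there are infinitely many `v` modulo which `f` is irreducible.) The proportion is positive for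
one set of polynomials, for all `M` at once.

What was known of this: for `F = ℚ` the library has the statement on `J_f` over all `M` (`MP_ac3185_nt.
RankZeroUniformly`) and for arbitrary `F` the statements on `J_f` over `F` (`MP_1d384c_nt.
JacobiansNumberFields`), and on elliptic curves over all `M` (`MP_bd895b_nt.EveryNumberFieldAtTwo`). The
theorem on `J_f` over all `M` for arbitrary `F` and arbitrary genus, and those on the forms, the isogeny
factors and the restrictions of scalars, that is on the abelian varieties over `ℚ`, are new.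

The groups in the theorem are those of arbitrary functors (from the algebraically closed fields of
characteristic zero, and from the algebraically closed extension fields of `F`, to the abelian groups); an
abelian variety over `ℚ`, or over `F`, gives such a functor. `A(ℚ)` is the group of the points over the
algebraic numbers which are fixed by the Galois group, and `Ш(A / ℚ)` is defined by continuous cocycles on
the absolute Galois group of `ℚ` with values in `A` of the algebraic numbers which are trivial over all
`ℚ_p` and over `ℝ`. A homomorphism over `ℚ` between `A` and `Res B` is the same as one over `F` between `A`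
and `B`; the composition `A → Res B → A` is the sum over the embeddings `F → L` of the compositions
`A(L) → B(L) → A(L)`.

Proof. The first part is the engine of the library (`Pool.Agent.N874.TF.final`, project TF of helper874,
based on project PF of helper783): for the `f ∈ U_g` the explicit 2-Selmer group over `M` is zero for all
`M ∈ C(f, Q_g)`. Let `c` be a cocycle for `Ш(A / ℚ)`, of 2-power order. Its restriction to `M` is mapped to
a locally trivial cocycle with values in the product of the Jacobians, which is a coboundary. So `n₁` times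
the image of `c` in `B` is a coboundary on the absolute Galois group of `M`. It is then a coboundary on the
absolute Galois group of `F`, up to the factor `[M : F]`; and without this factor if `n₁` is odd, because
then the group `B(M)` is uniquely divisible by two (by Galois descent for divisor classes and the theorem
over `M`) and the 2-group `Gal(M / F)` has no cohomology in it. By the lemma of Shapiro the image of `c` in
the restriction of scalars is a coboundary, and finally `n₂ c` is one.
-/

set_option autoImplicit false
set_option linter.all false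

namespace Pool.Agent.Results.MP_a43263_nt.EveryNumberField

open Polynomial Filter IsDedekindDomain NumberField
open Pool.Agent.H428.S (GroupFunctor FunctorOver IsFactorOver IsResFactor prod jacobian NoTwoPart
  NoTwoPartUpTo)
open scoped Classical

section defs

variable {F : Type} [Field F] [NumberField F]

/-- `f` is a monic polynomial of degree `2 g + 1` with integral coefficients, without term of degree
`2 g`, and of height at most `B`: all conjugates of the coefficient of degree `j` are at most
`B ^ (2 g + 1 - j)` in absolute value. -/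
structure IsPoly (g B : ℕ) (f : (𝓞 F)[X]) : Prop where
  monic : f.Monic
  degree : f.natDegree = 2 * g + 1
  trace : f.coeff (2 * g) = 0
  height : ∀ j ≤ 2 * g, ∀ σ : F →+* ℂ, ‖σ (f.coeff j : F)‖ ≤ (B : ℝ) ^ (2 * g + 1 - j)

variable (F) in
/-- The polynomials `f` of height at most `B`. -/
def Polys (g B : ℕ) : Set (𝓞 F)[X] := {f | IsPoly g B f}

/-- The set `U` has positive lower density among the polynomials, ordered by height. -/
def PositiveDensity (g : ℕ) (U : Set (𝓞 F)[X]) : Prop :=
  (∀ B : ℕ, (Polys F g B).Finite) ∧ ∃ c : ℝ, 0 < c ∧ ∀ᶠ B : ℕ in atTop,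
    0 < (Polys F g B).ncard ∧ c * ((Polys F g B).ncard : ℝ) ≤ ((U ∩ Polys F g B).ncard : ℝ)

/-- `f` is irreducible modulo `v`. -/
def IrreducibleMod (f : (𝓞 F)[X]) (v : HeightOneSpectrum (𝓞 F)) : Prop :=
  Irreducible (f.map (Ideal.Quotient.mk v.asIdeal))

/-- `M / F` is unramified at `v`. -/
def Unramified (v : HeightOneSpectrum (𝓞 F)) (M : Type) [Field M] [NumberField M]
    [Algebra F M] : Prop :=
  ∀ w : HeightOneSpectrum (𝓞 M), v.asIdeal.map (algebraMap (𝓞 F) (𝓞 M)) ≤ w.asIdeal →
    ¬ v.asIdeal.map (algebraMap (𝓞 F) (𝓞 M)) ≤ w.asIdeal ^ 2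

/-- `v` splits completely in `M`: it is unramified and all integers of `M` are congruent to integers of
`F` modulo every prime over `v`. -/
def SplitsCompletely (v : HeightOneSpectrum (𝓞 F)) (M : Type) [Field M] [NumberField M]
    [Algebra F M] : Prop :=
  Unramified v M ∧
  ∀ w : HeightOneSpectrum (𝓞 M), v.asIdeal.map (algebraMap (𝓞 F) (𝓞 M)) ≤ w.asIdeal →
    ∀ y : 𝓞 M, ∃ c : 𝓞 F, y - algebraMap (𝓞 F) (𝓞 M) c ∈ w.asIdeal

/-- The Galois extension `M / F` of 2-power degree belongs to the class `C(f, Q)`: all real places of `F`
split completely in `M`, so do the primes over `2` and the primes in `Q`, and `f` is irreducible modulo all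
primes which are ramified in `M`. -/
structure InClass (Q : Finset (HeightOneSpectrum (𝓞 F))) (f : (𝓞 F)[X]) (M : Type) [Field M]
    [NumberField M] [Algebra F M] : Prop where
  real : ∀ ρ : F →+* ℝ, ∃ ρ' : M →+* ℝ, ρ'.comp (algebraMap F M) = ρ
  two : ∀ v : HeightOneSpectrum (𝓞 F), (2 : 𝓞 F) ∈ v.asIdeal →
    Nonempty (M →ₐ[F] v.adicCompletion F)
  split : ∀ v ∈ Q, SplitsCompletely v M
  ramified : ∀ v : HeightOneSpectrum (𝓞 F), Unramified v M ∨ IrreducibleMod f v

/-- `f` as a polynomial over the extension `M` of `F`. -/
noncomputable def poly (M : Type) [Field M] [Algebra F M] (f : (𝓞 F)[X]) : M[X] :=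
  (f.map (algebraMap (𝓞 F) F)).map (algebraMap F M)

end defs

/-- For every number field `F` and every finite set `T` of primes of `F` there are, for all `g ≥ 1`, finite
sets `Q_g` of primes which are not in `T` and not over `2` and sets `U_g` of positive lower density of
polynomials which are irreducible modulo the primes over `2` and in `T`, such that for all `f_1, ..., f_k`
with `f_i ∈ U_(g_i)`, all Galois extensions `M / F` of degree `2 ^ b` in the classes `C(f_i, Q_(g_i))`, all
`B` over `F` with homomorphisms `B → J_1 × ... × J_k → B` over `M` with composition `n₁`, where `J_i` is the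
Jacobian of `y ^ 2 = f_i(x)`, and all `A` over `ℚ` with homomorphisms `A → Res B → A` with composition `n₂`,
the number `N = n₂ n₁ 2 ^ b` kills the 2-primary part of `Ш(A / ℚ)` and `N P` is divisible by all powers of
two in `A(ℚ)` for all `P ∈ A(ℚ)`; and if `n₁` and `n₂` are odd, then multiplication by two is bijective on
`A(ℚ)` and the 2-primary part of `Ш(A / ℚ)` is zero. -/
theorem result (F : Type) [Field F] [NumberField F] (T : Finset (HeightOneSpectrum (𝓞 F))) :
    ∃ (Q : ℕ → Finset (HeightOneSpectrum (𝓞 F))) (U : ℕ → Set (𝓞 F)[X]),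
      (∀ g : ℕ, 1 ≤ g → Disjoint (Q g) T ∧ (∀ v ∈ Q g, (2 : 𝓞 F) ∉ v.asIdeal) ∧
        PositiveDensity g (U g) ∧
        ∀ f ∈ U g, ∀ v, (2 : 𝓞 F) ∈ v.asIdeal ∨ v ∈ T → IrreducibleMod f v) ∧
      ∀ (k : ℕ) (g : Fin k → ℕ) (f : Fin k → (𝓞 F)[X]), (∀ i, 1 ≤ g i ∧ f i ∈ U (g i)) →
        ∀ (M : Type) [Field M] [NumberField M] [Algebra F M] [IsGalois F M] (b : ℕ),
        Module.finrank F M = 2 ^ b → (∀ i, InClass (Q (g i)) (f i) M) →
        ∀ (B : FunctorOver F) (n₁ : ℕ),
        IsFactorOver (B.baseChange M) (prod fun i => jacobian (poly M (f i))) n₁ →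
        ∀ (A : GroupFunctor) (n₂ : ℕ), IsResFactor A B n₂ →
          NoTwoPartUpTo A (n₂ * (n₁ * 2 ^ b)) ∧ (Odd n₁ → Odd n₂ → NoTwoPart A) := by
  choose Q hQT hQ2 c hc B₀ hB₀ using fun (g : ℕ) (hg : 1 ≤ g) =>
    Pool.Agent.N874.TF.final F hg T
  have heq : ∀ g B, Polys F g B = {f : (𝓞 F)[X] | Pool.Agent.N783.PF.Ht g B f} := by
    intro g B
    ext f
    exact ⟨fun h => ⟨h.monic, h.degree, h.trace, fun j hj σ => h.height j hj σ⟩,
      fun h => ⟨h.mon, h.deg, h.tr, fun j hj σ => h.ht j hj σ⟩⟩
  have hfin : ∀ g, 1 ≤ g → ∀ B : ℕ, (Polys F g B).Finite := by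
    intro g hg B
    have h1 := (hB₀ g hg (max B (B₀ g hg)) (le_max_right _ _)).1
    rw [← heq] at h1
    refine h1.subset fun f hf => ⟨hf.monic, hf.degree, hf.trace, fun j hj σ => ?_⟩
    refine (hf.height j hj σ).trans ?_
    exact pow_le_pow_left₀ (Nat.cast_nonneg _) (by exact_mod_cast le_max_left B (B₀ g hg)) _
  let V : ∀ (g : ℕ) (hg : 1 ≤ g), Set (𝓞 F)[X] := fun g hg =>
    {f | f.Monic ∧ f.natDegree = 2 * g + 1 ∧ Irreducible (Pool.Agent.N783.PF.fF f) ∧
      (∀ v : HeightOneSpectrum (𝓞 F), (2 : 𝓞 F) ∈ v.asIdeal →
        Irreducible (Pool.Agent.N783.PF.rd v.asIdeal f)) ∧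
      (∀ v ∈ T, Irreducible (Pool.Agent.N783.PF.rd v.asIdeal f)) ∧
      Pool.Agent.N874.TF.Uni {𝔭 | ∃ v ∈ Q g hg, 𝔭 = v.asIdeal} f f}
  refine ⟨fun g => if hg : 1 ≤ g then Q g hg else ∅,
    fun g => {f | ∃ hg : 1 ≤ g, f ∈ V g hg}, ?_, ?_⟩
  · intro g hg
    simp only [dif_pos hg]
    refine ⟨hQT g hg, hQ2 g hg, ⟨hfin g hg, c g hg, hc g hg, ?_⟩, ?_⟩
    · filter_upwards [eventually_ge_atTop (B₀ g hg)] with B hB
      obtain ⟨hHt, hle⟩ := hB₀ g hg B hB
      refine ⟨?_, ?_⟩
      · rw [Set.ncard_pos (hfin g hg B)]
        refine ⟨X ^ (2 * g + 1), monic_X_pow _, natDegree_X_pow _, ?_, fun j hj σ => ?_⟩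
        · rw [coeff_X_pow, if_neg (by omega)]
        · rw [coeff_X_pow, if_neg (by omega)]
          have e0 : ((0 : 𝓞 F) : F) = 0 := rfl
          rw [e0, map_zero, norm_zero]
          positivity
      · have h1 := Set.ncard_le_ncard
          (s := {f : (𝓞 F)[X] | Pool.Agent.N783.PF.Ht g B f ∧
            Irreducible (Pool.Agent.N783.PF.fF f) ∧
            (∀ v : HeightOneSpectrum (𝓞 F), (2 : 𝓞 F) ∈ v.asIdeal →
              Irreducible (Pool.Agent.N783.PF.rd v.asIdeal f)) ∧
            (∀ v ∈ T, Irreducible (Pool.Agent.N783.PF.rd v.asIdeal f)) ∧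
            Pool.Agent.N874.TF.Tws g {𝔭 | ∃ v ∈ Q g hg, 𝔭 = v.asIdeal} f ∧
            Pool.Agent.N874.TF.Uni {𝔭 | ∃ v ∈ Q g hg, 𝔭 = v.asIdeal} f f ∧
            Pool.Agent.N783.PF.Min g f})
          (t := {f | ∃ hg : 1 ≤ g, f ∈ V g hg} ∩ Polys F g B)
          (fun f hf => ⟨⟨hg, hf.1.mon, hf.1.deg, hf.2.1, hf.2.2.1, hf.2.2.2.1,
            hf.2.2.2.2.2.1⟩, by rw [heq]; exact hf.1⟩)
          ((hfin g hg B).subset Set.inter_subset_right)
        rw [heq g B]
        rw [heq g B] at h1
        exact hle.trans (by exact_mod_cast h1)
    · rintro f ⟨hg', hf⟩ v (hv | hv)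
      · exact hf.2.2.2.1 v hv
      · exact hf.2.2.2.2.1 v hv
  · intro k g f hf M _ _ _ _ b hb hM B n₁ hB A n₂ hA
    have hin : ∀ i, ∃ hg : 1 ≤ g i, f i ∈ V (g i) hg := fun i => (hf i).2
    choose hg hV using hin
    have key : ∀ i, Pool.Agent.N874.Jac.UniquelyTwoDivisible (poly M (f i)) ∧
        Pool.Agent.N874.Jac.ShaTwoTrivialReal (poly M (f i)) (𝓞 M) := by
      intro i
      obtain ⟨a1, a2, a3, a4, a5, a6⟩ := hV i
      have h1 := hM i
      have h2 := h1.split
      simp only [dif_pos (hg i)] at h2
      have hsel := a6 M (fun v hv => by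
          obtain ⟨σ⟩ := h1.two v hv
          exact ⟨σ, fun y => σ.commutes y⟩) h1.real b hb (by
          rintro v ⟨v', hv', h⟩
          rw [HeightOneSpectrum.ext h]
          have hv := h2 v' hv'
          refine ⟨Pool.Agent.N874.TF.unr_of hv.1, fun w hw y => ?_⟩
          obtain ⟨y, rfl⟩ := Ideal.Quotient.mk_surjective y
          obtain ⟨c, hc⟩ := hv.2 w (Ideal.map_le_iff_le_comap.2 hw) y
          exact ⟨c, (Ideal.Quotient.eq.2 hc).symm⟩) (by
          intro v hv
          rcases h1.ramified v with h | h
          · exact absurd (Pool.Agent.N874.TF.unr_of h) hv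
          · exact h)
      exact Pool.Agent.N874.TF.genuineF hb a1 (by rw [a2]; exact odd_two_mul_add_one _) a3 hsel
    have hmon : ∀ i, (poly M (f i)).Monic := fun i => ((hV i).1.map _).map _
    refine Pool.Agent.H428.S.jac_tower hb hmon (fun i => ?_) (fun i => ?_)
      (fun i => (key i).1) (fun i => (key i).2) hB hA
    · exact (hV i).2.2.1.separable.map
    · rw [poly, ((hV i).1.map _).natDegree_map, (hV i).1.natDegree_map, (hV i).2.1]
      exact odd_two_mul_add_one _

end Pool.Agent.Results.MP_a43263_nt.EveryNumberField
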