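import Pool.Agent.H428.P.Fer
import Pool.Agent.H428.P.Self

/-!
# Restrictions of scalars to `ℚ` of the Jacobians of twisted Fermat curves and of their quotients: the
# `p`-primary part of the Tate-Shafarevich group, for every odd prime `p`

Let `p` be an odd prime and `F` any number field which contains a primitive `p`-th root of unity. For
`D ∈ F^*` and `1 ≤ r ≤ p - 2` let `J_(r, D)` be the Jacobian of the curve `v ^ p = u (D - u) ^ r` of genus
`(p - 1) / 2`. The product of the `J_(r, D)`, `r = 1, ..., p - 2`, is isogenous to the Jacobian of the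
twisted Fermat curve `X ^ p + Y ^ p = D`, of dimension `(p - 1) (p - 2) / 2`.

Theorem. There are sets `G_r`, `r = 1, ..., p - 2`, of elements `D` of `F` such that

* in every family of the `D ∈ F^*` modulo `p`-th powers given by the local behaviour at the places above the
  primes `≤ y` and by the orders `z_i` modulo `p` at `k` further primes, the share of `G_r` is at least
  `α_p - ε`, and the share of the intersection of all the `G_r` at least `1 - (p - 1) / 2 (1 - α_p) - ε`,
  which is larger than `1 / 2`; here `α_p = ∏ (1 - p ^ (-(2 i + 1))) ≥ 1 - p / (p ^ 2 - 1)`;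
* for ALL abelian varieties `A` over `ℚ` with homomorphisms `A → Res P → A` over `ℚ` with composition `n`,
  where `P` is any product of the `J_(r, D)` with `D ∈ G_r` (any number of factors, any `r`, different `D`
  and repeated factors being allowed) and `Res` is the restriction of scalars from `F` to `ℚ`, the number
  `n` kills the `p`-primary part of `Ш(A / ℚ)`, and `p n Q` is divisible by all powers of `p` in `A(ℚ)`
  for all `Q ∈ A(ℚ)`. So (theorem of Mordell and Weil, finiteness of the Selmer groups) `A(ℚ)` and
  `Ш(A / ℚ)[p^∞]` are finite; and `Ш(A / ℚ)[p^∞] = 0` if `n` is prime to `p`.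

`A` may be `Res J_(r, D)` itself (`n = 1`; dimension `[F : ℚ] (p - 1) / 2`), the restriction of scalars of
the Jacobian of the curve `X ^ p + Y ^ p = D`, and the restriction of scalars from a subfield `F'` of `F`
of any abelian variety over `F'` which becomes over `F` an isogeny factor of such a product: for example
`ℚ(ζ_p) = F`, `F' = ℚ` and a twisted form over `ℚ` of a product of `J_(r, D)` and of its conjugates.

The theorem for `J_(r, D)` over `F` is in the library (`MP_dfae13_nt.FermatQuotientJacobians`, helper7 and
others), and is used here. New is the passage to the abelian varieties over `ℚ`. The groups in the theorem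
are those of arbitrary functors `A` from the algebraically closed fields of characteristic zero to the
abelian groups; an abelian variety over `ℚ` gives such a functor. `A(ℚ)` is the group of the points over
the algebraic numbers which are fixed by the Galois group, and `Ш(A / ℚ)` is defined by continuous cocycles
on the absolute Galois group of `ℚ` with values in `A` of the algebraic numbers which are trivial over all
`ℚ_p` and over `ℝ`. A homomorphism over `ℚ` between `A` and `Res P` is the same as one over `F` between `A`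
and `P`; the composition `A → Res P → A` is the sum over the embeddings `F → L` of the compositions
`A(L) → P(L) → A(L)`. `J_(r, D)(L)` is the class group of the coordinate ring over `L` of the curve (it has
one point at infinity).

Proof. A cocycle for `Ш(A / ℚ)` of `p`-power order is mapped to one for `Ш(J_(r, D) / F)`, which is a
coboundary; by the lemma of Shapiro its image in the restriction of scalars is one, and then `n` times the
cocycle. For the points: descent for classes, `J(F) = ⟨T⟩ + p J(F)`, and the trace.
-/

set_option autoImplicit false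
set_option linter.all false

namespace Pool.Agent.Results.MP_a43263_nt.FermatQuotients

open IsDedekindDomain NumberField
open Pool.Agent.H428.S (GroupFunctor FunctorOver IsResFactor IsFactorOver prod)
open Pool.Agent.H428.P (fermat KillsSha DivUpTo)
open Pool.Agent.Q7.CF (Ok)
open Pool.Agent.Results.MP_dfae13_nt.FermatQuotientJacobians (alpha Fits Ensemble Nested Trivial)
open scoped Classical

section

variable {F : Type} [Field F] [NumberField F]

/-- The sets `G r` have the shares `α_p - ε`, and their intersection the share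
`1 - (p - 1) / 2 (1 - α_p) - ε`, in all the ensembles of the elements of `F^*` modulo `p`-th powers with
many prime factors of growing norms. -/
def LargeShare (p : ℕ) [Fact p.Prime] (G : ℕ → Set F) : Prop :=
  ∃ y₀ : ℕ, ∀ y, y₀ ≤ y → ∀ D₀ : F, D₀ ≠ 0 →
    (∀ (k : ℕ) (z : Fin k → ZMod p) (q : Fin k → HeightOneSpectrum (𝓞 F)) (D D' : F),
      Fits p y D₀ z q D → Fits p y D₀ z q D' → ∃ x : F, D = D' * x ^ p) ∧
    ∀ ε : ℝ, 0 < ε → ∃ k₀ : ℕ, ∀ k, k₀ ≤ k → ∀ z : Fin k → ZMod p, (∀ i, z i ≠ 0) → Nested k fun X =>
      (Ensemble p y D₀ z X).Finite ∧ (Ensemble p y D₀ z X).Nonempty ∧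
      (∀ (r : ℕ) [Ok p r], (alpha p - ε) * (Ensemble p y D₀ z X).ncard ≤
        ({q ∈ Ensemble p y D₀ z X | ∀ D, Fits p y D₀ z q D → D ∈ G r}.ncard : ℝ)) ∧
      (1 - ((p : ℝ) - 1) / 2 * (1 - alpha p) - ε) * (Ensemble p y D₀ z X).ncard ≤
        ({q ∈ Ensemble p y D₀ z X |
          ∀ D, Fits p y D₀ z q D → ∀ (r : ℕ) [Ok p r], D ∈ G r}.ncard : ℝ)

end

/-- Let `p` be an odd prime and `F` a number field which contains the `p`-th roots of unity. There are
sets `G r` of nonzero elements of `F`, `1 ≤ r ≤ p - 2`, with large shares such that for every finite product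
`P` of the Jacobians `J_(r, D)` with `D ∈ G r`, every `A` over `ℚ` with homomorphisms `A → Res P → A` of
composition `n`: `n` kills the `p`-primary part of `Ш(A / ℚ)`, which is zero if `p` does not divide `n`,
and `n p Q` is divisible by all powers of `p` in `A(ℚ)` for all `Q ∈ A(ℚ)`. -/
theorem result (p : ℕ) [Fact p.Prime] (hp : p ≠ 2) (F : Type) [Field F] [NumberField F] (ζ : F)
    (hζ : IsPrimitiveRoot ζ p) :
    (p : ℝ) / ((p : ℝ) ^ 2 - 1) ≥ 1 - alpha p ∧
    ∃ G : ℕ → Set F, LargeShare p G ∧
      ∀ (k : ℕ) (r : Fin k → ℕ) [∀ i, Ok p (r i)] (D : Fin k → F) (hD : ∀ i, D i ≠ 0),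
        (∀ i, D i ∈ G (r i)) → ∀ (A : GroupFunctor) (n : ℕ),
        IsResFactor A (prod fun i => fermat p (r i) (D i) (hD i)) n →
        DivUpTo A p (n * p) ∧ KillsSha A p n ∧ (Nat.Coprime p n → KillsSha A p 1) := by
  obtain ⟨h0, h1⟩ := Pool.Agent.Results.MP_dfae13_nt.FermatQuotientJacobians.result p hp F ζ hζ
  refine ⟨h0, fun r => {D | ∀ h : Ok p r, Trivial p r D}, ?_, ?_⟩
  · obtain ⟨y₀, hy⟩ := h1
    refine ⟨y₀, fun y hy0 D₀ hD₀ => ⟨(hy y hy0 D₀ hD₀).1, fun ε hε => ?_⟩⟩
    obtain ⟨k₀, hk⟩ := (hy y hy0 D₀ hD₀).2 ε hε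
    refine ⟨k₀, fun k hk0 z hz => ?_⟩
    have h2 := hk k hk0 z hz
    have e1 : ∀ (X : Fin k → ℕ) (r : ℕ) (hr : Ok p r),
        {q ∈ Ensemble p y D₀ z X | ∀ D, Fits p y D₀ z q D →
          D ∈ {D : F | ∀ h : Ok p r, Trivial p r D}} =
          {q ∈ Ensemble p y D₀ z X | ∀ D, Fits p y D₀ z q D → Trivial p r D} := by
      intro X r hr
      ext q
      constructor
      · rintro ⟨h3, h4⟩
        exact ⟨h3, fun D hD => h4 D hD hr⟩
      · rintro ⟨h3, h4⟩
        exact ⟨h3, fun D hD _ => h4 D hD⟩
    have e2 : ∀ (X : Fin k → ℕ), {q ∈ Ensemble p y D₀ z X | ∀ D, Fits p y D₀ z q D →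
          ∀ (r : ℕ) [Ok p r], D ∈ {D : F | ∀ h : Ok p r, Trivial p r D}} =
          {q ∈ Ensemble p y D₀ z X | ∀ D, Fits p y D₀ z q D → ∀ (r : ℕ) [Ok p r], Trivial p r D} := by
      intro X
      ext q
      constructor
      · rintro ⟨h3, h4⟩
        exact ⟨h3, fun D hD r hr => h4 D hD r hr⟩
      · rintro ⟨h3, h4⟩
        exact ⟨h3, fun D hD r hr _ => h4 D hD r⟩
    convert h2 using 2 with X
    simp only [e2 X]
    refine and_congr Iff.rfl (and_congr Iff.rfl (and_congr ?_ Iff.rfl))
    refine forall_congr' fun r => forall_congr' fun hr => ?_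
    rw [e1 X r hr]
  · intro k r hr D hD hG A n hA
    have h2 : ∀ i, Pool.Agent.H428.P.Free p p
        (Pool.Agent.H428.S.oldOver (fermat p (r i) (D i) (hD i))) := fun i =>
      Pool.Agent.H428.P.free_fermat (hD i) (hG i (hr i))
    have h3 := Pool.Agent.H428.P.free_prod h2
    have hid : IsFactorOver ((prod fun i => fermat p (r i) (D i) (hD i)).baseChange F)
        (prod fun i => fermat p (r i) (D i) (hD i)) 1 := Pool.Agent.H428.P.factor_self _
    obtain ⟨h4, h5⟩ := Pool.Agent.H428.P.tower_any h3 hid hA
    rw [Module.finrank_self, one_mul] at h5 h4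
    rw [mul_one] at h5
    rw [one_mul] at h4
    exact ⟨h4, h5, fun h => Pool.Agent.H428.P.kills_one h5 h⟩

end Pool.Agent.Results.MP_a43263_nt.FermatQuotients
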