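import Pool.Agent.H428.Z.Fam

/-!
# The abelian varieties in the kernel of a trace `Res_{K/ℚ} E → Res_{F/ℚ} E`, for curves `E` over `ℚ` of any rank

`E : y² = x³ + A x² + B x` is an elliptic curve over `ℚ` with a rational point of order two; its rank over
`ℚ` may be large, and nothing is assumed about `Ш(E/ℚ)`. `K/F` is a Galois extension of number fields of odd
degree (`K` totally real of odd narrow class number, with conditions at `2` and at the bad primes of `E`, see
`Good`). The kernel `T` of the trace `Res_{K/ℚ} E → Res_{F/ℚ} E` is an abelian variety over `ℚ` of dimension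
`[K : ℚ] - [F : ℚ]`. We show that `T(ℚ)` is finite of odd order and that `Ш(T/ℚ)` has no 2-primary part; and
we show this, up to `n`, for all the abelian varieties `A` over `ℚ` with homomorphisms `A → T' → A` over `ℚ`
with composition `n`, where `T'` is a product of such kernels (for different curves and fields).

Abelian varieties are given by their functors of points on the algebraically closed fields, as in
`Pool.Agent.H428.S`: `GroupFunctor`, `over`, `Hom`, `trace` (`∑ ψ (φ P)`, sum over the embeddings of `K`),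
`RatPts` (the points over the algebraic numbers fixed by the Galois group of `ℚ`), `KillsShaTwo A n` (`n` kills
the 2-primary part of `Ш(A/ℚ)`), `NoTwoPart A` (multiplication by two is bijective on `A(ℚ)` and the 2-primary
part of `Ш(A/ℚ)` is zero); `curve A B` is the curve `y² = x³ + A x² + B x`, `relTrace` the sum of the conjugates
over the embeddings of `K` which extend a given embedding of `F`, `kernel E F K` the kernel `T` of the trace.

The proof. For a cocycle `c` in `Ш(A/ℚ)` let `d` be the image of its restriction in `H¹(K, E)`. It is known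
(`Pool.Agent.Helper891_XS`) that the Galois group of `K/F` acts trivially on the 2-primary part of `Ш(E/K)`
and on `E(K)/2`. So `[K : F] d` is the sum of the conjugates of `d`, and this is the image of `c` under the sum
of the conjugates of `A → E`, which is zero; and `[K : F]` is odd. The rational points are treated similarly,
with the theorem of Mordell and Weil; and the class of `n c` comes from the classes `d`.
-/

set_option autoImplicit false

namespace Pool.Agent.Results.MP_a43263_nt.TraceZero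

open NumberField IsDedekindDomain

open Pool.Agent.Y682 (NCl)

open Pool.Agent.H428.S (GroupFunctor ClosedField Hom trace RatPts KillsShaTwo NoTwoPart)

open Pool.Agent.H428.Z (curve relTrace kernel)

/-- `A`, `B` are the coefficients of a curve `E : y² = x³ + A x² + B x`, not both `4 ∣ A` and
`16 ∣ B`, with opposite types of the isogeny by `(0, 0)` at `∞` and at `2` : `B > 0` and
(`A < 0` or `A² < 4B`) holds if and only if `A` is odd or `4` does not divide `(A/2)² - B`. -/
def Pair (A B : ℤ) : Prop := B ≠ 0 ∧ A ^ 2 ≠ 4 * B ∧ ¬ (4 ∣ A ∧ 16 ∣ B) ∧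
  ((0 < B ∧ (A < 0 ∨ A ^ 2 < 4 * B)) ↔ (¬ 2 ∣ A ∨ ¬ 4 ∣ (A / 2) ^ 2 - B))

/-- The exceptional case at `2`: `A = 3 mod 4` and `B = 2` or `3 mod 4`, or `A = 2 mod 8` and
`(A/2)² - B = 8, 9, …, 15 mod 16`. -/
def Exc (A B : ℤ) : Prop := (A % 4 = 3 ∧ 2 ≤ B % 4) ∨ (A % 8 = 2 ∧ 8 ≤ ((A / 2) ^ 2 - B) % 16)

/-- `p` is odd and there are integers `d ≠ 0`, `α`, `β` with `A = d α`, `B = d² β` such that `β` and
`α² - 4 β` are not squares modulo any prime of `K` above `p`. -/
def NonSq (K : Type) [Field K] [NumberField K] (A B : ℤ) (p : ℕ) : Prop :=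
  p ≠ 2 ∧ ∃ d α β : ℤ, d ≠ 0 ∧ A = d * α ∧ B = d ^ 2 * β ∧
    ∀ v : HeightOneSpectrum (𝓞 K), (p : 𝓞 K) ∈ v.asIdeal → ∀ x : 𝓞 K,
      x ^ 2 - (β : 𝓞 K) ∉ v.asIdeal ∧ x ^ 2 - ((α ^ 2 - 4 * β : ℤ) : 𝓞 K) ∉ v.asIdeal

/-- The automorphisms of `K` over `F` fix all the primes of `K` above `p`. (If `K/F` is a Galois extension:
no prime of `F` above `p` splits in `K`.) -/
def NoSplit (F K : Type) [Field F] [NumberField F] [Field K] [NumberField K] [Algebra F K]
    (p : ℕ) : Prop :=
  ∀ (γ : K ≃ₐ[F] K) (v : HeightOneSpectrum (𝓞 K)), (p : 𝓞 K) ∈ v.asIdeal →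
    ∀ x : K, v.valuation K (γ x) = v.valuation K x

/-- `K/F` is a Galois extension of number fields, `K` is totally real of odd narrow class number, and one of
the following conditions holds.
(1) `A`, `B` are the coefficients of a curve with opposite types at `∞` and at `2`, the degree of `K` is odd,
the ideal `(2)` of the ring of integers of `K` is prime, the pair is not exceptional at `2` if `3` divides the
degree of `K`, and `NoSplit` or `NonSq` holds for each prime factor of `B (A² - 4B)`.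
(2) `A = a`, `B = 16 c` or `A = -2 a`, `B = a² - 64 c`, where `a = 1 mod 4`, `c > 0`, `a < 0` or `a² < 64 c`,
`a² ≠ 64 c`, the degree of `K/F` is odd, and `NoSplit` or `NonSq` (for `(a, 16 c)`) holds for each prime factor
of `c (a² - 64 c)`. -/
def Good (A B : ℤ) (F K : Type) [Field F] [NumberField F] [Field K] [NumberField K]
    [Algebra F K] : Prop :=
  IsGalois F K ∧ IsTotallyReal K ∧ Odd (Nat.card (NCl K)) ∧
  ((Pair A B ∧ Odd (Module.finrank ℚ K) ∧ (Ideal.span {(2 : 𝓞 K)}).IsPrime ∧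
      (3 ∣ Module.finrank ℚ K → ¬ Exc A B) ∧
      ∀ p : ℕ, p.Prime → (p : ℤ) ∣ B * (A ^ 2 - 4 * B) → NoSplit F K p ∨ NonSq K A B p) ∨
    (∃ a c : ℤ, a % 4 = 1 ∧ 0 < c ∧ (a < 0 ∨ a ^ 2 < 64 * c) ∧ a ^ 2 ≠ 64 * c ∧
      ((A = a ∧ B = 16 * c) ∨ (A = -2 * a ∧ B = a ^ 2 - 64 * c)) ∧ Odd (Module.finrank F K) ∧
      ∀ p : ℕ, p.Prime → (p : ℤ) ∣ c * (a ^ 2 - 64 * c) → NoSplit F K p ∨ NonSq K a (16 * c) p))

/-- There are homomorphisms `φ i : 𝒜 → E i` and `ψ i : E i → 𝒜` over `K i` with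
`∑ i, ∑ ψ i (φ i P) = n P` (inner sum over the embeddings of `K i`), and for every `i` the sum of the
conjugates of `φ i` over the embeddings of `K i` which extend a given embedding of `F i` is zero. So (for
abelian varieties) there are homomorphisms over `ℚ` from `𝒜` to the product of the kernels of the traces
`Res_{K i / ℚ} E i → Res_{F i / ℚ} E i` and from this product to `𝒜` with composition `n`. -/
def IsFactorKer (𝒜 : GroupFunctor) {ι : Type} [Fintype ι] (F K : ι → Type) [∀ i, Field (F i)]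
    [∀ i, Field (K i)] [∀ i, NumberField (K i)] [∀ i, Algebra (F i) (K i)]
    (E : ι → GroupFunctor) (n : ℕ) : Prop :=
  ∃ (φ : ∀ i, Hom (𝒜.over (K i)) ((E i).over (K i)))
    (ψ : ∀ i, Hom ((E i).over (K i)) (𝒜.over (K i))),
    (∀ (L : ClosedField) (P : 𝒜.pts L), ∑ i, trace (φ i) (ψ i) L P = n • P) ∧
    ∀ (i : ι) (L : ClosedField) (lam : F i →+* L.carrier) (P : 𝒜.pts L), relTrace (φ i) L lam P = 0

theorem kum_of {A B : ℤ} {F K : Type} [Field F] [NumberField F] [Field K] [NumberField K]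
    [Algebra F K] (h : Good A B F K) : Pool.Agent.H428.Z.Kum A B F K := by
  obtain ⟨h1, h2, h3, ⟨h4, h5, h6, h7, h8⟩ | ⟨a, c, h4, h5, h6, h7, h8, h9, h10⟩⟩ := h
  · exact Pool.Agent.H428.Z.kum_one h4 h1 h2 h5 h3 h6 h7 h8
  · exact Pool.Agent.H428.Z.kum_four h4 h5 h6 h7 h8 h1 h2 h9 h3 h10

/-- **Theorem.** (1) Let `(A i, B i, F i, K i)` be a finite family with `Good`, and let the abelian variety `𝒜`
over `ℚ` be an isogeny factor, up to `n`, of the product of the kernels of the traces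
`Res_{K i / ℚ} E i → Res_{F i / ℚ} E i`, where `E i : y² = x³ + A i x² + B i x`. Then `n` kills the 2-primary
part of `Ш(𝒜/ℚ)`, and `n N` kills `𝒜(ℚ)` for an odd `N`. If `n` is odd, then `𝒜(ℚ)` and `Ш(𝒜/ℚ)` have no
2-primary part.
(2) In particular, for `(A, B, F, K)` with `Good`, let `T` be the kernel of `Res_{K/ℚ} E → Res_{F/ℚ} E`. The
2-primary part of `Ш(T/ℚ)` is zero, and `T(ℚ)` is killed by an odd number.
(3) For all curves `E : y² = x³ + A x² + B x` with opposite types at `∞` and `2`, not exceptional at `2` (no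
condition on the rank), `Good` holds for all layers `F ⊆ K` of the cyclotomic `ℤ₃`-extension of `ℚ` with
`9 [F : ℚ] ≥ (B (A² - 4B))²`. -/
theorem result :
    (∀ (ι : Type) [Fintype ι] (F K : ι → Type) [∀ i, Field (F i)] [∀ i, NumberField (F i)]
      [∀ i, Field (K i)] [∀ i, NumberField (K i)] [∀ i, Algebra (F i) (K i)] (A B : ι → ℤ),
      (∀ i, Good (A i) (B i) (F i) (K i)) → ∀ (𝒜 : GroupFunctor) (n : ℕ),
      IsFactorKer 𝒜 F K (fun i => curve (A i) (B i)) n →
      KillsShaTwo 𝒜 n ∧ (∃ N : ℕ, Odd N ∧ ∀ P ∈ RatPts 𝒜, (n * N) • P = 0) ∧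
        (Odd n → NoTwoPart 𝒜)) ∧
    (∀ (A B : ℤ) (F K : Type) [Field F] [NumberField F] [Field K] [NumberField K] [Algebra F K],
      Good A B F K → NoTwoPart (kernel (curve A B) F K) ∧
        ∃ N : ℕ, Odd N ∧ ∀ P ∈ RatPts (kernel (curve A B) F K), N • P = 0) ∧
    (∀ A B : ℤ, Pair A B → ¬ Exc A B → ∀ (n : ℕ) (M : Type) [Field M] [NumberField M]
      [IsCyclotomicExtension {3 ^ (n + 1)} ℚ M] (F K : IntermediateField ℚ M) (hFK : F ≤ K),
      Odd (Module.finrank ℚ K) → (B * (A ^ 2 - 4 * B)) ^ 2 ≤ 9 * (Module.finrank ℚ F : ℤ) →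
      letI : Algebra F K := (IntermediateField.inclusion hFK).toRingHom.toAlgebra
      Good A B F K) := by
  have H1 : ∀ (ι : Type) [Fintype ι] (F K : ι → Type) [∀ i, Field (F i)] [∀ i, NumberField (F i)]
      [∀ i, Field (K i)] [∀ i, NumberField (K i)] [∀ i, Algebra (F i) (K i)] (A B : ι → ℤ),
      (∀ i, Good (A i) (B i) (F i) (K i)) → ∀ (𝒜 : GroupFunctor) (n : ℕ),
      IsFactorKer 𝒜 F K (fun i => curve (A i) (B i)) n →
      KillsShaTwo 𝒜 n ∧ (∃ N : ℕ, Odd N ∧ ∀ P ∈ RatPts 𝒜, (n * N) • P = 0) ∧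
        (Odd n → NoTwoPart 𝒜) := by
    intro ι _ F K _ _ _ _ _ A B h 𝒜 n hn
    have hK := fun i => kum_of (h i)
    exact ⟨Pool.Agent.H428.Z.fam_sha hK hn, Pool.Agent.H428.Z.fam_pts hK hn,
      fun hodd => Pool.Agent.H428.Z.fam_odd hK hn hodd⟩
  refine ⟨H1, ?_, ?_⟩
  · intro A B F K _ _ _ _ _ h
    have hodd : Odd (Module.finrank F K) := (kum_of h).odd
    obtain ⟨-, ⟨N, hN, hN2⟩, h3⟩ := H1 Unit (fun _ => F) (fun _ => K) (fun _ => A) (fun _ => B)
      (fun _ => h) _ _ (Pool.Agent.H428.Z.kernel_factor A B F K)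
    exact ⟨h3 hodd, _, hodd.mul hN, hN2⟩
  · intro A B hP hE n M _ _ _ F K hFK hodd hbig
    obtain ⟨h1, h2, h3, h4, h5, h6⟩ := Pool.Agent.H428.Z.tower_facts n M F K hFK hodd
    refine ⟨h1, h2, h3, Or.inl ⟨hP, h4, h5, fun _ => hE, fun p hp hpd => Or.inl (h6 p hp
      (Or.inr fun h => ?_))⟩⟩
    have hne : B * (A ^ 2 - 4 * B) ≠ 0 := by
      obtain ⟨hB, hD, -, -⟩ := hP
      exact mul_ne_zero hB (sub_ne_zero.2 hD)
    have h1 : (p : ℤ) ^ 2 ≤ (B * (A ^ 2 - 4 * B)) ^ 2 := by
      rw [sq_le_sq, Nat.abs_cast]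
      exact Int.le_of_dvd (abs_pos.2 hne) ((dvd_abs _ _).2 hpd)
    have hp2 := hp.two_le
    have h2 : 0 < p ^ 2 - 1 := by
      have : 2 ^ 2 ≤ p ^ 2 := Nat.pow_le_pow_left hp2 2
      omega
    have h3 := Nat.le_of_dvd h2 h
    have h4 : ((p ^ 2 : ℕ) : ℤ) ≤ ((9 * Module.finrank ℚ F : ℕ) : ℤ) := by
      push_cast
      linarith
    have h5 : p ^ 2 ≤ 9 * Module.finrank ℚ F := by exact_mod_cast h4
    omega

end Pool.Agent.Results.MP_a43263_nt.TraceZero
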